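import Pool.Agent.TZL.Main

set_option autoImplicit false

/-!
# 2-adic L-functions of real quadratic characters: the law of the absolute value

The prime is `p = 2`. For a real quadratic discriminant `D` let `L_2(s, chi_D)` be the
Kubota-Leopoldt `2`-adic L-function. For a proportion `(1 - 1/2)(1 - 1/4)(1 - 1/8) ... = 0.2887...`
of all `D` it has the smallest valuation allowed by genus theory at every point `s` of the `2`-adic
integers, hence no zero at the integers `m >= 2` (nor at any `s /= 0`).
-/

namespace Pool.Agent.Results.MP_b20a3c_nt.RealQuadraticLaw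

open Finset Filter Topology

/-- `D` is the discriminant of a real quadratic field. -/
def RealDisc (D : ℕ) : Prop :=
  1 < D ∧ ((D % 4 = 1 ∧ Squarefree D) ∨
    (D % 4 = 0 ∧ Squarefree (D / 4) ∧ (D / 4 % 4 = 2 ∨ D / 4 % 4 = 3)))

/-- The function `a ↦ chi_D(a) * chi_{-4}(a)^n` on the odd residues modulo `4 D`, zero on the even
ones; `chi_D(a)` is the Kronecker symbol `(D / a)`, and `omega = chi_{-4}` for `p = 2`. This is the
character `chi_D * omega^(-n)` with its Euler factor at `2` removed. -/
noncomputable def Phi (D n : ℕ) : ZMod (4 * D) → ℂ := fun a =>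
  if a.val % 2 = 1 then ((jacobiSym (D : ℤ) a.val * (-1) ^ (n * (a.val / 2)) : ℤ) : ℂ) else 0

/-- The L-function of `Phi D n`, continued to the complex plane (for `D ≥ 1`). -/
noncomputable def LV (D n : ℕ) (s : ℂ) : ℂ :=
  if h : D = 0 then 0 else
    haveI : NeZero (4 * D) := ⟨mul_ne_zero four_ne_zero h⟩
    ZMod.LFunction (Phi D n) s

/-- `L` is the `2`-adic L-function of `chi_D`: the continuous function on the `2`-adic integers with
`L(1 - n) = L(chi_D omega^(-n), 1 - n) * (1 - (chi_D omega^(-n))(2) 2^(n-1))` for `n ≥ 2`; these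
values are rational numbers, and the points `1 - n`, `n ≥ 2`, are dense. -/
def IsL2 (D : ℕ) (L : ℤ_[2] → ℚ_[2]) : Prop :=
  Continuous L ∧ ∀ n : ℕ, 2 ≤ n → ∃ r : ℚ, (r : ℂ) = LV D n (1 - n) ∧ L (1 - n) = (r : ℚ_[2])

/-- The number of odd primes dividing `D`. -/
def om (D : ℕ) : ℕ := (D.primeFactors.erase 2).card

/-- `L` has the smallest valuation allowed by genus theory at every `s`: `|L(s)| = 2^(-t)` for all
`s`, where `t` is the number of odd primes dividing `D`; in the case `D = 28` modulo `32`, where `L`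
has a trivial zero at `s = 0`, `|L(s)| = |s| 2^(-t-1)` for all `s`. -/
def Generic (D : ℕ) (L : ℤ_[2] → ℚ_[2]) : Prop :=
  (D % 32 ≠ 28 ∧ ∀ s, ‖L s‖ = (1 / 2 : ℝ) ^ om D) ∨
    (D % 32 = 28 ∧ ∀ s, ‖L s‖ = ‖s‖ * (1 / 2 : ℝ) ^ (om D + 1))

/-- The eight classes of real quadratic discriminants `D = k m`, `m = c` modulo `8`, that is,
`D = k c` modulo `8 k`: `D` is `1` or `5` modulo `8`, `12` or `28` modulo `32`, or `8`, `24`, `40`
or `56` modulo `64`. -/
def types : Finset (ℕ × ℕ) := {(1, 1), (1, 5), (4, 3), (4, 7), (8, 1), (8, 3), (8, 5), (8, 7)}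

open Classical in
/-- The real quadratic discriminants up to `X` in the union `T` of classes. -/
noncomputable def Dset (T : Finset (ℕ × ℕ)) (X : ℕ) : Finset ℕ :=
  (Icc 1 X).filter fun D => RealDisc D ∧ ∃ t ∈ T, D % (8 * t.1) = t.1 * t.2

open Classical in
/-- **The law.** For every nonempty set `T` of the eight classes (for instance for all of them) the
proportion of the real quadratic discriminants `D ≤ X` in these classes such that the `2`-adic
L-function of `chi_D` exists, is unique, and satisfies `|L(s)| = 2^(-t)` for all `s`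
(`|L(s)| = |s| 2^(-t-1)` in the trivial zero case) tends to `∏_{i ≥ 1} (1 - 2^(-i))`. -/
theorem result (T : Finset (ℕ × ℕ)) (hT : T ⊆ types) (hne : T.Nonempty) :
    Tendsto (fun X : ℕ => (((Dset T X).filter fun D => ∃ L, IsL2 D L ∧
      (∀ L', IsL2 D L' → L' = L) ∧ Generic D L).card : ℝ) / ((Dset T X).card : ℝ)) atTop
      (𝓝 (∏' i : ℕ, (1 - (1 / 2 : ℝ) ^ (i + 1)))) :=
  Pool.Agent.TZL.law_T T hT hne

end Pool.Agent.Results.MP_b20a3c_nt.RealQuadraticLaw
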