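import Pool.Agent.TZL.Crit

set_option autoImplicit false

/-!
# 2-adic L-functions of real quadratic characters: a criterion for the minimal absolute value
-/

namespace Pool.Agent.Results.MP_b20a3c_nt.RedeiCriterion

open Finset Polynomial

/-- `D` is the discriminant of a real quadratic field. -/
def RealDisc (D : ℕ) : Prop :=
  1 < D ∧ ((D % 4 = 1 ∧ Squarefree D) ∨
    (D % 4 = 0 ∧ Squarefree (D / 4) ∧ (D / 4 % 4 = 2 ∨ D / 4 % 4 = 3)))

/-- The function `a ↦ chi_D(a) * chi_{-4}(a)^n` on the odd residues modulo `4 D`, zero on the even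
ones; `chi_D(a)` is the Kronecker symbol `(D / a)`, and `omega = chi_{-4}` for `p = 2`. This is the
character `chi_D * omega^(-n)` with its Euler factor at `2` removed. -/
noncomputable def Phi (D n : ℕ) : ZMod (4 * D) → ℂ := fun a =>
  if a.val % 2 = 1 then ((jacobiSym (D : ℤ) a.val * (-1) ^ (n * (a.val / 2)) : ℤ) : ℂ) else 0

/-- The L-function of `Phi D n`, continued to the complex plane (for `D ≥ 1`). -/
noncomputable def LV (D n : ℕ) (s : ℂ) : ℂ :=
  if h : D = 0 then 0 else
    haveI : NeZero (4 * D) := ⟨mul_ne_zero four_ne_zero h⟩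
    ZMod.LFunction (Phi D n) s

/-- `L` is the `2`-adic L-function of `chi_D`. -/
def IsL2 (D : ℕ) (L : ℤ_[2] → ℚ_[2]) : Prop :=
  Continuous L ∧ ∀ n : ℕ, 2 ≤ n → ∃ r : ℚ, (r : ℂ) = LV D n (1 - n) ∧ L (1 - n) = (r : ℚ_[2])

/-- The number of odd primes dividing `D`. -/
def om (D : ℕ) : ℕ := (D.primeFactors.erase 2).card

/-- the smallest valuation allowed by genus theory, at every `s` -/
def Generic (D : ℕ) (L : ℤ_[2] → ℚ_[2]) : Prop :=
  (D % 32 ≠ 28 ∧ ∀ s, ‖L s‖ = (1 / 2 : ℝ) ^ om D) ∨
    (D % 32 = 28 ∧ ∀ s, ‖L s‖ = ‖s‖ * (1 / 2 : ℝ) ^ (om D + 1))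

/-- a larger valuation at every `s` -/
def Exceptional (D : ℕ) (L : ℤ_[2] → ℚ_[2]) : Prop :=
  (D % 32 ≠ 28 ∧ ∀ s, ‖L s‖ ≤ (1 / 2 : ℝ) ^ (om D + 1)) ∨
    (D % 32 = 28 ∧ ∀ s, ‖L s‖ ≤ ‖s‖ * (1 / 2 : ℝ) ^ (om D + 2))

/-- `lam p = 1` iff `p = 3` or `5` modulo `8` -/
def lam (p : ℕ) : ZMod 2 := if p % 8 = 3 ∨ p % 8 = 5 then 1 else 0

/-- `sy p q = 1` iff `(q / p) = -1` -/
def sy (p q : ℕ) : ZMod 2 := if jacobiSym (q : ℤ) p = -1 then 1 else 0

/-- The polynomial `det(T Lambda + R)` over the field with two elements, for an odd squarefree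
number `m`: rows and columns are the primes of `m`, `Lambda` is the diagonal matrix of the bits
`lam p`, and `R` is the Redei type matrix with entries `sy p q` off the diagonal and row sums
zero. -/
noncomputable def Pm (m : ℕ) : (ZMod 2)[X] :=
  Matrix.det (Matrix.of fun i j : {x // x ∈ m.primeFactors} =>
    if i = j then C (lam i) * X + ∑ k ∈ univ.erase i, C (sy i k) else C (sy i j))

/-- The digit of `D`: with `P_m = det(T Lambda + R)`, the value `P_m(1)` if `D = 8 m`, the
coefficient of `T^2` if `D = 4 m` with `m = 7` modulo `8`, and the coefficient of `T` in the other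
cases `D = 4 m` and `D = m` (`m` odd). -/
noncomputable def digit (D : ℕ) : ZMod 2 :=
  if D % 8 = 0 then (Pm (D / 8)).eval 1 else
    if D % 32 = 28 then (Pm (D / 4)).coeff 2 else
      if D % 4 = 0 then (Pm (D / 4)).coeff 1 else (Pm D).coeff 1

/-- **Criterion.** For every real quadratic discriminant `D` the `2`-adic L-function of `chi_D`
exists and is unique; if the digit of `D` is `1` its valuation is the smallest one allowed by genus
theory at every point (so it has no zero at any integer `m ≥ 2`), and if the digit is `0` the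
valuation is larger at every point. -/
theorem result (D : ℕ) (hD : RealDisc D) : ∃ L, IsL2 D L ∧ (∀ L', IsL2 D L' → L' = L) ∧
    ((digit D = 1 ∧ Generic D L) ∨ (digit D = 0 ∧ Exceptional D L)) :=
  Pool.Agent.TZL.crit hD

end Pool.Agent.Results.MP_b20a3c_nt.RedeiCriterion
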